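import Pool.Agent.V7H70.TE.Defs

/-!
# The deterministic pushdown automaton for tree evaluation

A value `a` is represented on the stack by a marker `M` (`false`) and `a` tokens (`true`) above it.
-/

set_option autoImplicit false

namespace Pool.Agent.V7H70.TE

/-- The states. -/
inductive St : Type
  | ready | skip | col | copy | rest | acc
  deriving DecidableEq, Fintype

/-- The steps of the automaton; `true` is a token and `false` is a marker. -/
def stepFn : St → Option Bool → Letter → Option (St × List Bool)
  | St.ready, x, Letter.L => some (St.ready, false :: x.toList)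
  | St.ready, some x, Letter.V => some (St.ready, [true, x])
  | St.ready, some x, Letter.O => some (St.ready, [x])
  | St.ready, some false, Letter.B => some (St.col, [])
  | St.ready, some true, Letter.B => some (St.skip, [true])
  | St.ready, some false, Letter.Z => some (St.acc, [false])
  | St.skip, some x, Letter.V => some (St.skip, [x])
  | St.skip, some x, Letter.O => some (St.skip, [x])
  | St.skip, some x, Letter.X => some (St.skip, [x])
  | St.skip, some true, Letter.C => some (St.ready, [])
  | St.col, some x, Letter.V => some (St.col, [x])
  | St.col, some x, Letter.O => some (St.col, [x])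
  | St.col, some true, Letter.X => some (St.col, [])
  | St.col, some false, Letter.X => some (St.copy, [false])
  | St.copy, some x, Letter.V => some (St.copy, [true, x])
  | St.copy, some x, Letter.O => some (St.copy, [x])
  | St.copy, some x, Letter.X => some (St.rest, [x])
  | St.copy, some x, Letter.C => some (St.rest, [x])
  | St.rest, some x, Letter.F => some (St.ready, [x])
  | St.rest, some x, Letter.V => some (St.rest, [x])
  | St.rest, some x, Letter.O => some (St.rest, [x])
  | St.rest, some x, Letter.X => some (St.rest, [x])
  | St.rest, some x, Letter.B => some (St.rest, [x])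
  | St.rest, some x, Letter.C => some (St.rest, [x])
  | _, _, _ => none

/-- The automaton. -/
def aut : DPDA Letter St Bool where
  start := St.ready
  accept := {St.acc}
  step := stepFn

/-- The configuration after reading a word. -/
def run (c : Option (St × List Bool)) (w : List Letter) : Option (St × List Bool) :=
  w.foldl aut.next c

lemma run_append (c : Option (St × List Bool)) (u v : List Letter) :
    run c (u ++ v) = run (run c u) v := List.foldl_append

lemma run_cons (c : Option (St × List Bool)) (a : Letter) (v : List Letter) :
    run c (a :: v) = run (aut.next c a) v := rfl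

/-- The stack for the value `a` on top of `γ`. -/
def stk (a : ℕ) (γ : List Bool) : List Bool := List.replicate a true ++ false :: γ

lemma stk_zero (γ : List Bool) : stk 0 γ = false :: γ := rfl

lemma stk_succ (a : ℕ) (γ : List Bool) : stk (a + 1) γ = true :: stk a γ := rfl

lemma stk_ne (a : ℕ) (γ : List Bool) : ∃ x s, stk a γ = x :: s := by
  cases a with
  | zero => exact ⟨_, _, rfl⟩
  | succ a => exact ⟨_, _, rfl⟩

/-- The unary code of `c`. -/
def code (k : ℕ) (c : Fin k) : List Letter :=
  (List.finRange k).map fun i => if i < c then Letter.V else Letter.O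

lemma countP_code (k : ℕ) (c : Fin k) :
    (List.finRange k).countP (fun i => decide (i < c)) = c.val := by
  rw [List.countP_eq_length_filter]
  have h1 : ((List.finRange k).filter fun i => decide (i < c)).toFinset = Finset.Iio c := by
    ext i
    simp
  have h2 := List.toFinset_card_of_nodup
    ((List.nodup_finRange k).filter fun i => decide (i < c))
  rw [← h2, h1, Fin.card_Iio]

/-- Reading digits in a state in which the tokens are pushed. -/
lemma run_push (q : St) (hV : ∀ x : Bool, stepFn q (some x) Letter.V = some (q, [true, x]))
    (hO : ∀ x : Bool, stepFn q (some x) Letter.O = some (q, [x])) {k : ℕ} (c : Fin k)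
    (γ : List Bool) : ∀ (l : List (Fin k)) (a : ℕ),
    run (some (q, stk a γ)) (l.map fun i => if i < c then Letter.V else Letter.O) =
      some (q, stk (a + l.countP (fun i => decide (i < c))) γ) := by
  intro l
  induction l with
  | nil =>
    intro a
    simp [run]
  | cons i l ih =>
    intro a
    obtain ⟨x, s, hs⟩ := stk_ne a γ
    rw [List.map_cons, run_cons, List.countP_cons]
    by_cases h : i < c
    · have h1 : aut.next (some (q, stk a γ)) Letter.V = some (q, stk (a + 1) γ) := by
        rw [stk_succ, hs]
        simp [DPDA.next, aut, hV]
      rw [if_pos h, h1, ih]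
      simp [h]
      congr 1
      omega
    · have h1 : aut.next (some (q, stk a γ)) Letter.O = some (q, stk a γ) := by
        rw [hs]
        simp [DPDA.next, aut, hO]
      rw [if_neg h, h1, ih]
      simp [h]

lemma run_code (q : St) (hV : ∀ x : Bool, stepFn q (some x) Letter.V = some (q, [true, x]))
    (hO : ∀ x : Bool, stepFn q (some x) Letter.O = some (q, [x])) {k : ℕ} (c : Fin k)
    (γ : List Bool) :
    run (some (q, stk 0 γ)) (code k c) = some (q, stk c.val γ) := by
  unfold code
  rw [run_push q hV hO, countP_code, zero_add]

/-- Reading letters which are ignored. -/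
lemma run_ignore (q : St) (P : Letter → Prop)
    (hP : ∀ a, P a → ∀ x : Bool, stepFn q (some x) a = some (q, [x])) {x : Bool} {s : List Bool} :
    ∀ w : List Letter, (∀ a ∈ w, P a) → run (some (q, x :: s)) w = some (q, x :: s) := by
  intro w
  induction w with
  | nil => intro _; rfl
  | cons a w ih =>
    intro h
    rw [run_cons]
    have h1 : aut.next (some (q, x :: s)) a = some (q, x :: s) := by
      simp [DPDA.next, aut, hP a (h a (by simp))]
    rw [h1]
    exact ih fun b hb => h b (by simp [hb])

/-- The letters of the entries of one block. -/
def blockWord (k : ℕ) (t : Fin k → Fin k) (l : List (Fin k)) : List Letter :=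
  l.flatMap fun a => Letter.X :: code k (t a)

/-- The letters of a table. -/
def tableWord (k : ℕ) (t : Fin k → Fin k → Fin k) (l : List (Fin k)) : List Letter :=
  l.flatMap fun b => Letter.B :: (blockWord k (fun a => t a b) (List.finRange k) ++ [Letter.C])

lemma mem_blockWord {k : ℕ} {t : Fin k → Fin k} {l : List (Fin k)} {a : Letter}
    (h : a ∈ blockWord k t l) : a = Letter.V ∨ a = Letter.O ∨ a = Letter.X := by
  unfold blockWord at h
  rw [List.mem_flatMap] at h
  obtain ⟨b, -, h⟩ := h
  rw [List.mem_cons] at h
  rcases h with h | h
  · exact Or.inr (Or.inr h)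
  · unfold code at h
    rw [List.mem_map] at h
    obtain ⟨i, -, h⟩ := h
    split_ifs at h
    · exact Or.inl h.symm
    · exact Or.inr (Or.inl h.symm)

lemma mem_tableWord {k : ℕ} {t : Fin k → Fin k → Fin k} {l : List (Fin k)} {a : Letter}
    (h : a ∈ tableWord k t l) : a = Letter.V ∨ a = Letter.O ∨ a = Letter.X ∨ a = Letter.B ∨
      a = Letter.C := by
  unfold tableWord at h
  rw [List.mem_flatMap] at h
  obtain ⟨b, -, h⟩ := h
  rw [List.mem_cons, List.mem_append, List.mem_singleton] at h
  rcases h with h | h | h
  · tauto
  · have := mem_blockWord h
    tauto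
  · tauto

lemma mem_code {k : ℕ} {c : Fin k} {a : Letter} (h : a ∈ code k c) :
    a = Letter.V ∨ a = Letter.O := by
  unfold code at h
  rw [List.mem_map] at h
  obtain ⟨i, -, h⟩ := h
  split_ifs at h
  · exact Or.inl h.symm
  · exact Or.inr h.symm

/-- Skipping blocks. -/
lemma run_skip {k : ℕ} (t : Fin k → Fin k → Fin k) (γ : List Bool) : ∀ (l : List (Fin k)) (n : ℕ),
    run (some (St.ready, stk (n + l.length) γ)) (tableWord k t l) = some (St.ready, stk n γ) := by
  intro l
  induction l with
  | nil => intro n; rfl
  | cons b l ih =>
    intro n
    have e : tableWord k t (b :: l) = Letter.B ::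
        (blockWord k (fun a => t a b) (List.finRange k) ++ (Letter.C :: tableWord k t l)) := by
      simp [tableWord]
    rw [e, List.length_cons, ← add_assoc, stk_succ, run_cons]
    have h1 : aut.next (some (St.ready, true :: stk (n + l.length) γ)) Letter.B =
        some (St.skip, true :: stk (n + l.length) γ) := by
      simp [DPDA.next, aut, stepFn]
    rw [h1, run_append, run_ignore St.skip (fun a => a = Letter.V ∨ a = Letter.O ∨ a = Letter.X)
      (by rintro a (rfl | rfl | rfl) x <;> rfl) _ (fun a ha => mem_blockWord ha), run_cons]
    have h2 : aut.next (some (St.skip, true :: stk (n + l.length) γ)) Letter.C =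
        some (St.ready, stk (n + l.length) γ) := by
      simp [DPDA.next, aut, stepFn]
    rw [h2, ih]

/-- Skipping entries. -/
lemma run_col {k : ℕ} (t : Fin k → Fin k) (γ : List Bool) : ∀ (l : List (Fin k)) (n : ℕ),
    run (some (St.col, stk (n + l.length) γ)) (blockWord k t l) = some (St.col, stk n γ) := by
  intro l
  induction l with
  | nil => intro n; rfl
  | cons a l ih =>
    intro n
    have e : blockWord k t (a :: l) = Letter.X :: (code k (t a) ++ blockWord k t l) := by
      simp [blockWord]
    rw [e, List.length_cons, ← add_assoc, stk_succ, run_cons]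
    have h1 : aut.next (some (St.col, true :: stk (n + l.length) γ)) Letter.X =
        some (St.col, stk (n + l.length) γ) := by
      simp [DPDA.next, aut, stepFn]
    obtain ⟨x, s, hs⟩ := stk_ne (n + l.length) γ
    rw [h1, run_append, hs, run_ignore St.col (fun a => a = Letter.V ∨ a = Letter.O)
      (by rintro a (rfl | rfl) x <;> rfl) _ (fun a ha => mem_code ha), ← hs, ih]

lemma finRange_split {k : ℕ} (a : Fin k) : ∃ l₁ l₂ : List (Fin k),
    List.finRange k = l₁ ++ a :: l₂ ∧ l₁.length = a.val := by
  refine ⟨(List.finRange k).take a.val, (List.finRange k).drop (a.val + 1), ?_, ?_⟩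
  · have h : a.val < (List.finRange k).length := by simp
    have h1 := List.take_append_drop a.val (List.finRange k)
    rw [List.drop_eq_getElem_cons h] at h1
    rw [List.getElem_finRange] at h1
    simpa using h1.symm
  · simp

/-- Looking up the value in a table. -/
lemma run_table {k : ℕ} (t : Fin k → Fin k → Fin k) (a b : Fin k) (γ : List Bool) :
    run (some (St.ready, stk b.val (stk a.val γ))) (tableWord k t (List.finRange k) ++ [Letter.F]) =
      some (St.ready, stk (t a b).val γ) := by
  obtain ⟨l₁, l₂, hl, hl1⟩ := finRange_split b
  obtain ⟨m₁, m₂, hm, hm1⟩ := finRange_split a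
  have e1 : tableWord k t (List.finRange k) ++ [Letter.F] = tableWord k t l₁ ++ (Letter.B ::
      (blockWord k (fun a => t a b) m₁ ++ (Letter.X :: (code k (t a b) ++
        (blockWord k (fun a => t a b) m₂ ++ (Letter.C :: (tableWord k t l₂ ++ [Letter.F]))))))) := by
    conv_lhs => rw [hl]
    simp only [tableWord, List.flatMap_append, List.flatMap_cons]
    rw [hm]
    simp [blockWord]
  have h0 := run_skip t (stk a.val γ) l₁ 0
  rw [zero_add, hl1] at h0
  rw [e1, run_append, h0, stk_zero, run_cons]
  have h1 : aut.next (some (St.ready, false :: stk a.val γ)) Letter.B =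
      some (St.col, stk a.val γ) := by
    simp [DPDA.next, aut, stepFn]
  have h2 := run_col (fun a => t a b) γ m₁ 0
  rw [zero_add, hm1] at h2
  rw [h1, run_append, h2, stk_zero, run_cons]
  have h3 : aut.next (some (St.col, false :: γ)) Letter.X = some (St.copy, stk 0 γ) := by
    simp [DPDA.next, aut, stepFn, stk]
  rw [h3, run_append, run_code St.copy (fun _ => rfl) (fun _ => rfl)]
  obtain ⟨x, s, hs⟩ := stk_ne (t a b).val γ
  rw [hs]
  -- from now on all letters are ignored
  have hrest : ∀ w : List Letter, (∀ c ∈ w, c = Letter.V ∨ c = Letter.O ∨ c = Letter.X ∨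
      c = Letter.B ∨ c = Letter.C) → run (some (St.rest, x :: s)) w = some (St.rest, x :: s) :=
    run_ignore St.rest _ (by rintro c (rfl | rfl | rfl | rfl | rfl) y <;> rfl)
  have hF : run (some (St.rest, x :: s)) [Letter.F] = some (St.ready, x :: s) := by
    simp [run, DPDA.next, aut, stepFn]
  have hC : run (some (St.rest, x :: s)) (Letter.C :: (tableWord k t l₂ ++ [Letter.F])) =
      some (St.ready, x :: s) := by
    have e2 : Letter.C :: (tableWord k t l₂ ++ [Letter.F]) =
        (Letter.C :: tableWord k t l₂) ++ [Letter.F] := rfl
    rw [e2, run_append, hrest, hF]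
    intro c hc
    rw [List.mem_cons] at hc
    rcases hc with hc | hc
    · tauto
    · exact mem_tableWord hc
  cases m₂ with
  | nil =>
    rw [show blockWord k (fun a => t a b) [] = [] from rfl, List.nil_append, run_cons]
    have h4 : aut.next (some (St.copy, x :: s)) Letter.C = some (St.rest, x :: s) := by
      simp [DPDA.next, aut, stepFn]
    rw [h4, run_append, hrest _ fun c hc => mem_tableWord hc, hF]
  | cons c m₂ =>
    have e2 : blockWord k (fun a => t a b) (c :: m₂) = Letter.X :: (code k (t c b) ++
        blockWord k (fun a => t a b) m₂) := by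
      simp [blockWord]
    rw [e2, List.cons_append, run_cons]
    have h4 : aut.next (some (St.copy, x :: s)) Letter.X = some (St.rest, x :: s) := by
      simp [DPDA.next, aut, stepFn]
    rw [h4, run_append, hrest, hC]
    intro c' hc'
    rw [List.mem_append] at hc'
    rcases hc' with hc' | hc'
    · have := mem_code hc'
      tauto
    · have := mem_blockWord hc'
      tauto

lemma letter_tablePlaces {k : ℕ} (I : Inst k) (p : List Bool) :
    (tablePlaces k p).map I.letter = tableWord k (I.table p) (List.finRange k) ++ [Letter.F] := by
  simp only [tablePlaces, tableWord, blockWord, code, List.map_append, List.map_flatMap,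
    List.map_cons, List.map_nil, Inst.letter, List.map_map, Function.comp_def]

lemma run_sub {k : ℕ} (I : Inst k) : ∀ (j : ℕ) (p : List Bool) (γ : List Bool),
    run (some (St.ready, γ)) ((subPlaces k j p).map I.letter) =
      some (St.ready, stk (I.val j p).val γ) := by
  intro j
  induction j with
  | zero =>
    intro p γ
    have e : (subPlaces k 0 p).map I.letter = Letter.L :: code k (I.leaf p) := by
      simp only [subPlaces, List.map_cons, Inst.letter, List.map_map, Function.comp_def, code]
    rw [e, run_cons]
    have h1 : aut.next (some (St.ready, γ)) Letter.L = some (St.ready, stk 0 γ) := by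
      cases γ with
      | nil => simp [DPDA.next, aut, stepFn, stk]
      | cons x γ => simp [DPDA.next, aut, stepFn, stk]
    rw [h1, run_code St.ready (fun _ => rfl) (fun _ => rfl)]
    rfl
  | succ j ih =>
    intro p γ
    rw [subPlaces, List.map_append, List.map_append, run_append, run_append, ih, ih,
      letter_tablePlaces, run_table]
    rfl

/-- The automaton evaluates the tree. -/
lemma accepts_word {k : ℕ} (d : ℕ) (I : Inst k) :
    aut.Accepts (word d I) ↔ (I.val d []).val = 0 := by
  have h1 : (word d I).foldl aut.next (some (aut.start, [])) =
      aut.next (some (St.ready, stk (I.val d []).val [])) Letter.Z := by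
    have h2 := run_sub I d [] []
    unfold word places
    rw [List.map_append, List.foldl_append]
    unfold run at h2
    change List.foldl aut.next (List.foldl aut.next (some (St.ready, [])) _) _ = _
    rw [h2]
    rfl
  unfold DPDA.Accepts
  rw [h1]
  cases hc : (I.val d []).val with
  | zero =>
    simp only [iff_true]
    exact ⟨St.acc, [false], by simp [DPDA.next, aut, stepFn, stk], rfl⟩
  | succ c =>
    simp only [Nat.add_eq_zero_iff, one_ne_zero, and_false, iff_false]
    rintro ⟨q, s, h2, -⟩
    rw [stk_succ] at h2
    simp [DPDA.next, aut, stepFn] at h2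

end Pool.Agent.V7H70.TE
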