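import Mathlib

/-!
# Words of nodes of a binary tree: intervals with many missing children, or many readings

The nodes of the complete binary tree of depth `d` are the lists of Booleans of length at most `d`;
the children of `p` are `false :: p` and `true :: p`. A word is a list of nodes.
-/

set_option autoImplicit false

namespace Pool.Agent.V7H70.TE

open Finset

/-- The pairs `(p, c)` such that the node `p` lies below `y` and occurs in the word, while its child
`c :: p` (which belongs to the tree of depth `d`) does not occur. -/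
def missing (d : ℕ) (w : List (List Bool)) (y : List Bool) : Finset (List Bool × Bool) :=
  (w.toFinset ×ˢ (univ : Finset Bool)).filter
    (fun e => y <:+ e.1 ∧ (e.2 :: e.1) ∉ w ∧ e.1.length < d)

lemma mem_missing {d : ℕ} {w : List (List Bool)} {y : List Bool} {e : List Bool × Bool} :
    e ∈ missing d w y ↔ e.1 ∈ w ∧ y <:+ e.1 ∧ (e.2 :: e.1) ∉ w ∧ e.1.length < d := by
  simp [missing]

lemma missing_mono {d : ℕ} {w : List (List Bool)} {y y' : List Bool} (h : y <:+ y') :
    missing d w y' ⊆ missing d w y := by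
  intro e he
  rw [mem_missing] at he ⊢
  exact ⟨he.1, h.trans he.2.1, he.2.2⟩

/-- All nodes of the tree of depth `d` below `y` occur in the word. -/
def Full (d : ℕ) (y : List Bool) (w : List (List Bool)) : Prop :=
  ∀ n : List Bool, y <:+ n → n.length ≤ d → n ∈ w

lemma Full.mono {d : ℕ} {y : List Bool} {w w' : List (List Bool)} (h : Full d y w)
    (hw : ∀ n ∈ w, n ∈ w') : Full d y w' := fun n h1 h2 => hw n (h n h1 h2)

lemma full_take_mono {d : ℕ} {y : List Bool} {w : List (List Bool)} {s t : ℕ} (hst : s ≤ t)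
    (h : Full d y (w.take s)) : Full d y (w.take t) :=
  h.mono fun _ hn => (List.take_subset_take_left w hst) hn

/-- Two suffixes of a list are comparable. -/
lemma comparable {a b n : List Bool} (ha : a <:+ n) (hb : b <:+ n) : a <:+ b ∨ b <:+ a := by
  rcases le_total a.length b.length with h | h
  · exact Or.inl (List.suffix_of_suffix_length_le ha hb h)
  · exact Or.inr (List.suffix_of_suffix_length_le hb ha h)

/-- `a` and `b` are incomparable. -/
def Inc (a b : List Bool) : Prop := ¬ a <:+ b ∧ ¬ b <:+ a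

lemma Inc.symm {a b : List Bool} (h : Inc a b) : Inc b a := ⟨h.2, h.1⟩

lemma Inc.down {a b a' b' : List Bool} (h : Inc a b) (ha : a <:+ a') (hb : b <:+ b') :
    Inc a' b' := by
  constructor
  · intro h'
    rcases comparable (ha.trans h') hb with h1 | h1
    · exact h.1 h1
    · exact h.2 h1
  · intro h'
    rcases comparable ha (hb.trans h') with h1 | h1
    · exact h.1 h1
    · exact h.2 h1

lemma inc_of_ne {z z' : List Bool} (hl : z.length = z'.length) (hne : z ≠ z') : Inc z z' :=
  ⟨fun h => hne (h.eq_of_length hl), fun h => hne (h.eq_of_length hl.symm).symm⟩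

/-- On the way from `a` down to `n` one leaves a set of nodes. -/
lemma exists_edge {a : List Bool} (P : List Bool → Prop) (ha : P a) :
    ∀ n : List Bool, a <:+ n → ¬ P n →
      ∃ (p : List Bool) (c : Bool), a <:+ p ∧ (c :: p) <:+ n ∧ P p ∧ ¬ P (c :: p) := by
  intro n
  induction n with
  | nil =>
    intro h hn
    rw [List.suffix_nil] at h
    exact absurd (h ▸ ha) hn
  | cons c n ih =>
    intro h hn
    rcases List.suffix_cons_iff.1 h with h1 | h1
    · exact absurd (h1 ▸ ha) hn
    · by_cases hp : P n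
      · exact ⟨n, c, h1, List.suffix_rfl, hp, hn⟩
      · obtain ⟨p, c', h2, h3, h4, h5⟩ := ih h1 hp
        exact ⟨p, c', h2, h3.trans (List.suffix_cons c n), h4, h5⟩

/-- The node `z` is read completely at most once: not in both parts, whenever the word is divided. -/
def Single (d : ℕ) (w : List (List Bool)) (z : List Bool) : Prop :=
  ∀ t : ℕ, ¬ (Full d z (w.take t) ∧ Full d z (w.drop t))

/-- The number of missing children below `y` in the two parts of the word. -/
def both (d : ℕ) (w : List (List Bool)) (t : ℕ) (y : List Bool) : ℕ :=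
  (missing d (w.take t) y).card + (missing d (w.drop t) y).card

/-- At some time there are `i` missing children below `y`, a node of `Z` below `y` has been read
completely, and another one has not. -/
def Good (d : ℕ) (w : List (List Bool)) (Z : Finset (List Bool)) (i : ℕ) (y : List Bool) : Prop :=
  ∃ t : ℕ, i ≤ both d w t y ∧ (∃ z ∈ Z, y <:+ z ∧ Full d z (w.take t)) ∧
    ∃ z ∈ Z, y <:+ z ∧ ¬ Full d z (w.take t)

/-- If below `y` one node of `Z` is completely read at the time `t` and another one is not, there is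
a missing child on the path between them. -/
lemma new_edge {d : ℕ} {w : List (List Bool)} {t : ℕ} {y z z' : List Bool} (hy : y ∈ w)
    (hz : y <:+ z) (hz' : y <:+ z') (hs : Single d w z) (h : Full d z (w.take t))
    (h' : ¬ Full d z' (w.take t)) :
    ∃ e : List Bool × Bool, (e ∈ missing d (w.take t) y ∧ ∃ n, z' <:+ n ∧ e.1 <:+ n) ∨
      (e ∈ missing d (w.drop t) y ∧ ∃ n, z <:+ n ∧ e.1 <:+ n) := by
  have h1 : ¬ Full d z (w.drop t) := fun hf => hs t ⟨h, hf⟩
  unfold Full at h1 h'
  push Not at h1 h'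
  obtain ⟨n, hn, hnd, hnt⟩ := h1
  obtain ⟨n', hn', hnd', hnt'⟩ := h'
  rw [← List.take_append_drop t w, List.mem_append] at hy
  rcases hy with hy | hy
  · obtain ⟨p, c, h1, h2, h3, h4⟩ := exists_edge (fun m => m ∈ w.take t) hy n' (hz'.trans hn') hnt'
    refine ⟨(p, c), Or.inl ⟨?_, n', hn', (List.suffix_cons c p).trans h2⟩⟩
    rw [mem_missing]
    refine ⟨h3, h1, h4, ?_⟩
    have := h2.length_le
    simp only [List.length_cons] at this ⊢
    omega
  · obtain ⟨p, c, h1, h2, h3, h4⟩ := exists_edge (fun m => m ∈ w.drop t) hy n (hz.trans hn) hnt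
    refine ⟨(p, c), Or.inr ⟨?_, n, hn, (List.suffix_cons c p).trans h2⟩⟩
    rw [mem_missing]
    refine ⟨h3, h1, h4, ?_⟩
    have := h2.length_le
    simp only [List.length_cons] at this ⊢
    omega

/-- Two different nodes of the same level are not completed at the same time. -/
lemma exists_time {d : ℕ} {w : List (List Bool)} {z z' : List Bool} (hl : z.length = z'.length)
    (hd : z.length ≤ d) (hne : z ≠ z') (hf : Full d z w) :
    ∃ t : ℕ, (Full d z (w.take t) ∧ ¬ Full d z' (w.take t)) ∨
      (Full d z' (w.take t) ∧ ¬ Full d z (w.take t)) := by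
  classical
  by_contra hcon
  push Not at hcon
  have hiff : ∀ t, Full d z (w.take t) ↔ Full d z' (w.take t) := fun t =>
    ⟨(hcon t).1, (hcon t).2⟩
  have hex : ∃ t, Full d z (w.take t) := ⟨w.length, by rwa [List.take_length]⟩
  have h1 := Nat.find_spec hex
  have h2 := (hiff _).1 h1
  have h0 : Nat.find hex ≠ 0 := by
    intro h0
    rw [h0] at h1
    have := h1 z List.suffix_rfl hd
    simp at this
  obtain ⟨t, ht⟩ := Nat.exists_eq_succ_of_ne_zero h0
  have h3 : ¬ Full d z (w.take t) := Nat.find_min hex (by omega)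
  have h4 : ¬ Full d z' (w.take t) := fun h => h3 ((hiff t).2 h)
  rw [ht] at h1 h2
  have key : ∀ u : List Bool, Full d u (w.take (t + 1)) → ¬ Full d u (w.take t) →
      ∃ n, w[t]? = some n ∧ u <:+ n := by
    intro u hu hu'
    unfold Full at hu'
    push Not at hu'
    obtain ⟨n, hn, hnd, hnt⟩ := hu'
    have := hu n hn hnd
    rw [List.take_add_one, List.mem_append] at this
    rcases this with h | h
    · exact absurd h hnt
    · refine ⟨n, ?_, hn⟩
      simpa using h
  obtain ⟨n, hn, hun⟩ := key z h1 h3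
  obtain ⟨n', hn', hun'⟩ := key z' h2 h4
  rw [hn] at hn'
  cases hn'
  rcases comparable hun hun' with h | h
  · exact hne (h.eq_of_length hl)
  · exact hne (h.eq_of_length hl.symm).symm

lemma both_mono {d : ℕ} {w : List (List Bool)} {t : ℕ} {y y' : List Bool} (h : y <:+ y') :
    both d w t y' ≤ both d w t y :=
  Nat.add_le_add (card_le_card (missing_mono h)) (card_le_card (missing_mono h))

lemma good_base {d : ℕ} {w : List (List Bool)} {Z : Finset (List Bool)} {ℓ : ℕ} (hℓ : ℓ ≤ d)
    (hZ : ∀ z ∈ Z, z.length = ℓ ∧ Single d w z ∧ Full d z w) {y z z' : List Bool} (hy : y ∈ w)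
    (h1 : z ∈ Z) (h2 : z' ∈ Z) (hyz : y <:+ z) (hyz' : y <:+ z') (hne : z ≠ z') :
    Good d w Z 1 y := by
  have hl : z.length = z'.length := (hZ z h1).1.trans (hZ z' h2).1.symm
  have key : ∀ a ∈ Z, ∀ b ∈ Z, y <:+ a → y <:+ b → ∀ t, Full d a (w.take t) →
      ¬ Full d b (w.take t) → Good d w Z 1 y := by
    intro a ha b hb hya hyb t h3 h4
    refine ⟨t, ?_, ⟨a, ha, hya, h3⟩, ⟨b, hb, hyb, h4⟩⟩
    obtain ⟨e, he⟩ := new_edge hy hya hyb (hZ a ha).2.1 h3 h4
    unfold both
    rcases he with ⟨he, -⟩ | ⟨he, -⟩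
    · have := card_pos.2 ⟨e, he⟩
      omega
    · have := card_pos.2 ⟨e, he⟩
      omega
  obtain ⟨t, ht⟩ := exists_time hl (by rw [(hZ z h1).1]; exact hℓ) hne (hZ z h1).2.2
  rcases ht with ⟨h3, h4⟩ | ⟨h3, h4⟩
  · exact key z h1 z' h2 hyz hyz' t h3 h4
  · exact key z' h2 z h1 hyz' hyz t h3 h4

lemma good_step' {d : ℕ} {w : List (List Bool)} {Z : Finset (List Bool)}
    (hZ : ∀ z ∈ Z, Single d w z) {i : ℕ} {y y₁ y₂ y₃ : List Bool} (hy : y ∈ w)
    (hy1 : y <:+ y₁) (hy2 : y <:+ y₂) (hy3 : y <:+ y₃) (h12 : Inc y₁ y₂) (h23 : Inc y₂ y₃)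
    {t₁ t₂ t₃ : ℕ} (ht12 : t₁ ≤ t₂) (ht23 : t₂ ≤ t₃)
    (h1 : ∃ z ∈ Z, y₁ <:+ z ∧ Full d z (w.take t₁)) (h2 : i ≤ both d w t₂ y₂)
    (h3 : ∃ z ∈ Z, y₃ <:+ z ∧ ¬ Full d z (w.take t₃)) : Good d w Z (i + 1) y := by
  obtain ⟨z, hz, hyz, hf⟩ := h1
  obtain ⟨z', hz', hyz', hf'⟩ := h3
  have hf2 := full_take_mono ht12 hf
  have hf2' : ¬ Full d z' (w.take t₂) := fun h => hf' (full_take_mono ht23 h)
  refine ⟨t₂, ?_, ⟨z, hz, hy1.trans hyz, hf2⟩, ⟨z', hz', hy3.trans hyz', hf2'⟩⟩
  obtain ⟨e, he⟩ := new_edge hy (hy1.trans hyz) (hy3.trans hyz') (hZ z hz) hf2 hf2'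
  unfold both at h2 ⊢
  have hs1 := missing_mono (d := d) (w := w.take t₂) hy2
  have hs2 := missing_mono (d := d) (w := w.drop t₂) hy2
  rcases he with ⟨he, n, hn, hen⟩ | ⟨he, n, hn, hen⟩
  · have hnot : e ∉ missing d (w.take t₂) y₂ := by
      intro h
      rw [mem_missing] at h
      rcases comparable (h.2.1.trans hen) (hyz'.trans hn) with h5 | h5
      · exact h23.1 h5
      · exact h23.2 h5
    have h4 : (missing d (w.take t₂) y₂).card < (missing d (w.take t₂) y).card :=
      card_lt_card ((ssubset_iff_of_subset hs1).2 ⟨e, he, hnot⟩)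
    have h5 := card_le_card hs2
    omega
  · have hnot : e ∉ missing d (w.drop t₂) y₂ := by
      intro h
      rw [mem_missing] at h
      rcases comparable (h.2.1.trans hen) (hyz.trans hn) with h5 | h5
      · exact h12.2 h5
      · exact h12.1 h5
    have h4 : (missing d (w.drop t₂) y₂).card < (missing d (w.drop t₂) y).card :=
      card_lt_card ((ssubset_iff_of_subset hs2).2 ⟨e, he, hnot⟩)
    have h5 := card_le_card hs1
    omega

lemma good_step {d : ℕ} {w : List (List Bool)} {Z : Finset (List Bool)}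
    (hZ : ∀ z ∈ Z, Single d w z) {i : ℕ} {y y₁ y₂ y₃ : List Bool} (hy : y ∈ w)
    (hy1 : y <:+ y₁) (hy2 : y <:+ y₂) (hy3 : y <:+ y₃) (h12 : Inc y₁ y₂) (h23 : Inc y₂ y₃)
    (h13 : Inc y₁ y₃) (g1 : Good d w Z i y₁) (g2 : Good d w Z i y₂) (g3 : Good d w Z i y₃) :
    Good d w Z (i + 1) y := by
  obtain ⟨t₁, a1, b1, c1⟩ := g1
  obtain ⟨t₂, a2, b2, c2⟩ := g2
  obtain ⟨t₃, a3, b3, c3⟩ := g3
  rcases le_total t₁ t₂ with h | h <;> rcases le_total t₂ t₃ with h' | h' <;>
    rcases le_total t₁ t₃ with h'' | h''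
  · exact good_step' hZ hy hy1 hy2 hy3 h12 h23 h h' b1 a2 c3
  · exact good_step' hZ hy hy1 hy2 hy3 h12 h23 h h' b1 a2 c3
  · exact good_step' hZ hy hy1 hy3 hy2 h13 h23.symm h'' h' b1 a3 c2
  · exact good_step' hZ hy hy3 hy1 hy2 h13.symm h12 h'' h b3 a1 c2
  · exact good_step' hZ hy hy2 hy1 hy3 h12.symm h13 h h'' b2 a1 c3
  · exact good_step' hZ hy hy2 hy3 hy1 h23 h13.symm h' h'' b2 a3 c1
  · exact good_step' hZ hy hy3 hy2 hy1 h23.symm h12.symm h' h b3 a2 c1
  · exact good_step' hZ hy hy3 hy2 hy1 h23.symm h12.symm h' h b3 a2 c1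

/-- `Z` contains the leaves of a complete binary tree of depth `j` embedded below `y`. -/
def Rk (Z : Finset (List Bool)) : ℕ → List Bool → Prop
  | 0, y => ∃ z ∈ Z, y <:+ z
  | j + 1, y => ∃ y₀ y₁ : List Bool, y <:+ y₀ ∧ y <:+ y₁ ∧ Inc y₀ y₁ ∧ Rk Z j y₀ ∧ Rk Z j y₁

lemma Rk.up {Z : Finset (List Bool)} {j : ℕ} {y y' : List Bool} (h : y <:+ y') (hr : Rk Z j y') :
    Rk Z j y := by
  cases j with
  | zero =>
    obtain ⟨z, hz, h1⟩ := hr
    exact ⟨z, hz, h.trans h1⟩
  | succ j =>
    obtain ⟨y₀, y₁, h0, h1, h2⟩ := hr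
    exact ⟨y₀, y₁, h.trans h0, h.trans h1, h2⟩

lemma good_of_rk {d : ℕ} {w : List (List Bool)} {Z : Finset (List Bool)} {ℓ : ℕ} (hℓ : ℓ ≤ d)
    (hZ : ∀ z ∈ Z, z.length = ℓ ∧ Single d w z ∧ Full d z w)
    {r : List Bool} (hr : ∀ y : List Bool, r <:+ y → ∀ z ∈ Z, y <:+ z → y ∈ w) :
    ∀ (i : ℕ) (y : List Bool), r <:+ y → Rk Z (2 * i + 1) y → Good d w Z (i + 1) y := by
  have hw : ∀ (j : ℕ) (y : List Bool), r <:+ y → Rk Z j y → y ∈ w := by
    intro j
    induction j with
    | zero =>
      rintro y hy ⟨z, hz, h⟩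
      exact hr y hy z hz h
    | succ j ih =>
      rintro y hy ⟨y₀, y₁, h0, h1, h2, h3, h4⟩
      have : Rk Z j y := h3.up h0
      exact ih y hy this
  intro i
  induction i with
  | zero =>
    rintro y hy ⟨y₀, y₁, h0, h1, h2, ⟨z, hz, hz1⟩, ⟨z', hz', hz1'⟩⟩
    refine good_base hℓ hZ (hr y hy z hz (h0.trans hz1)) hz hz' (h0.trans hz1) (h1.trans hz1') ?_
    rintro rfl
    rcases comparable hz1 hz1' with h | h
    · exact h2.1 h
    · exact h2.2 h
  | succ i ih =>
    intro y hy hr'
    have e : 2 * (i + 1) + 1 = (2 * i + 1) + 1 + 1 := by ring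
    rw [e] at hr'
    have hyw := hw _ y hy hr'
    obtain ⟨y₀, y₁, h0, h1, h2, ⟨y₀₀, y₀₁, a0, a1, a2, a3, a4⟩, ⟨y₁₀, y₁₁, b0, b1, b2, b3, b4⟩⟩ := hr'
    exact good_step (fun z hz => (hZ z hz).2.1) hyw (h0.trans a0) (h0.trans a1) (h1.trans b0) a2
      (h2.down a1 b0) (h2.down a0 b0) (ih _ (hy.trans (h0.trans a0)) a3)
      (ih _ (hy.trans (h0.trans a1)) a4) (ih _ (hy.trans (h1.trans b0)) b3)

lemma sum_choose_succ (n j : ℕ) :
    ∑ i ∈ range (j + 1), (n + 1).choose i =
      ∑ i ∈ range (j + 1), n.choose i + ∑ i ∈ range j, n.choose i := by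
  rw [Finset.sum_range_succ', Finset.sum_range_succ' (fun i => n.choose i)]
  simp only [Nat.choose_succ_succ, Finset.sum_add_distrib, Nat.choose_zero_right]
  ring

lemma rk_of_card {Z : Finset (List Bool)} {ℓ : ℕ} (hZ : ∀ z ∈ Z, z.length = ℓ) :
    ∀ (n j : ℕ) (y : List Bool), y.length + n = ℓ →
      ∑ i ∈ range j, n.choose i < (Z.filter (fun z => y <:+ z)).card → Rk Z j y := by
  intro n
  induction n with
  | zero =>
    intro j y hy hc
    have hsub : Z.filter (fun z => y <:+ z) ⊆ {y} := by
      intro z hz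
      rw [mem_filter] at hz
      rw [mem_singleton]
      exact (hz.2.eq_of_length (by rw [hZ z hz.1]; omega)).symm
    have h1 := card_le_card hsub
    rw [card_singleton] at h1
    cases j with
    | zero =>
      obtain ⟨z, hz⟩ := card_pos.1 (lt_of_le_of_lt (Nat.zero_le _) hc)
      rw [mem_filter] at hz
      exact ⟨z, hz.1, hz.2⟩
    | succ j =>
      rw [Finset.sum_range_succ'] at hc
      simp only [Nat.choose_zero_right] at hc
      omega
  | succ n ih =>
    intro j y hy hc
    cases j with
    | zero =>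
      obtain ⟨z, hz⟩ := card_pos.1 (lt_of_le_of_lt (Nat.zero_le _) hc)
      rw [mem_filter] at hz
      exact ⟨z, hz.1, hz.2⟩
    | succ j =>
      have hsub : Z.filter (fun z => y <:+ z) ⊆ Z.filter (fun z => (false :: y) <:+ z) ∪
          Z.filter (fun z => (true :: y) <:+ z) := by
        intro z hz
        rw [mem_filter] at hz
        obtain ⟨hz, s, hs⟩ := hz
        have hl := hZ z hz
        rcases List.eq_nil_or_concat s with rfl | ⟨s', c, rfl⟩
        · rw [List.nil_append] at hs
          rw [← hs] at hl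
          omega
        · rw [mem_union, mem_filter, mem_filter]
          cases c with
          | false => exact Or.inl ⟨hz, s', by rw [← hs]; simp⟩
          | true => exact Or.inr ⟨hz, s', by rw [← hs]; simp⟩
      have h1 := (card_le_card hsub).trans (card_union_le _ _)
      rw [sum_choose_succ] at hc
      by_cases h0 : ∑ i ∈ range j, n.choose i < (Z.filter (fun z => (false :: y) <:+ z)).card
      · by_cases h0' : ∑ i ∈ range j, n.choose i < (Z.filter (fun z => (true :: y) <:+ z)).card
        · refine ⟨false :: y, true :: y, List.suffix_cons _ _, List.suffix_cons _ _,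
            inc_of_ne (by simp) (by simp), ih j _ (by simp; omega) h0,
            ih j _ (by simp; omega) h0'⟩
        · exact (ih (j + 1) (false :: y) (by simp; omega) (by omega)).up (List.suffix_cons _ _)
      · exact (ih (j + 1) (true :: y) (by simp; omega) (by omega)).up (List.suffix_cons _ _)

/-- If all intervals of the word have at most `b` missing children, then at most half of the nodes at
distance `8 b + 1` below `y` are read completely only once. -/
lemma card_single_le {d b : ℕ} {w : List (List Bool)}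
    (hw : ∀ I : List (List Bool), I <:+: w → (missing d I []).card ≤ b) {y : List Bool}
    (hd : y.length + (8 * b + 1) ≤ d) (hf : Full d y w) (Z : Finset (List Bool))
    (hZ : ∀ z ∈ Z, z.length = y.length + (8 * b + 1) ∧ y <:+ z ∧ Single d w z) :
    Z.card ≤ 2 ^ (8 * b) := by
  by_contra hcon
  push Not at hcon
  -- replace the words below `y` by the words themselves
  have hZ' : ∀ z ∈ Z, z.length = y.length + (8 * b + 1) ∧ Single d w z ∧ Full d z w :=
    fun z hz => ⟨(hZ z hz).1, (hZ z hz).2.2, fun n hn hnd => hf n ((hZ z hz).2.1.trans hn) hnd⟩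
  have hyw : y ∈ w := hf y List.suffix_rfl (by omega)
  have hfil : Z.filter (fun z => y <:+ z) = Z := filter_true_of_mem fun z hz => (hZ z hz).2.1
  have hrk : Rk Z (2 * (2 * b) + 1) y := by
    refine rk_of_card (ℓ := y.length + (8 * b + 1)) (fun z hz => (hZ z hz).1) (8 * b + 1) _ y
      (by omega) ?_
    rw [hfil]
    have e1 : 8 * b + 1 = 2 * (4 * b) + 1 := by ring
    have e2 : 2 * (2 * b) + 1 = 4 * b + 1 := by ring
    rw [e1, e2, Nat.sum_range_choose_halfway]
    have e3 : (4 : ℕ) ^ (4 * b) = 2 ^ (8 * b) := by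
      rw [show (4 : ℕ) = 2 ^ 2 by norm_num, ← pow_mul]
      ring_nf
    rwa [e3]
  obtain ⟨t, h1, -, -⟩ := good_of_rk (ℓ := y.length + (8 * b + 1)) (d := d) (w := w) hd hZ'
    (r := y) (fun y' hy' z hz hz' => hf y' hy' (hz'.length_le.trans (by rw [(hZ z hz).1]; exact hd)))
    (2 * b) y List.suffix_rfl hrk
  unfold both at h1
  have h2 := hw (w.take t) (List.take_prefix t w).isInfix
  have h3 := hw (w.drop t) (List.drop_suffix t w).isInfix
  have h4 := card_le_card (missing_mono (d := d) (w := w.take t) (List.nil_suffix (l := y)))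
  have h5 := card_le_card (missing_mono (d := d) (w := w.drop t) (List.nil_suffix (l := y)))
  omega

/-- The number of occurrences of leaves (nodes of level `d`) below `y` in the word. -/
def leafCount (d : ℕ) (y : List Bool) (w : List (List Bool)) : ℕ :=
  w.countP fun n => decide (y <:+ n ∧ n.length = d)

/-- The nodes at distance `L` below `y`. -/
def below (L : ℕ) (y : List Bool) : Finset (List Bool) :=
  (univ : Finset (List.Vector Bool L)).image fun s => s.toList ++ y

lemma mem_below {L : ℕ} {y z : List Bool} : z ∈ below L y ↔ y <:+ z ∧ z.length = y.length + L := by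
  unfold below
  simp only [mem_image, mem_univ, true_and]
  constructor
  · rintro ⟨s, rfl⟩
    exact ⟨⟨s.toList, rfl⟩, by simp; ring⟩
  · rintro ⟨⟨s, rfl⟩, h⟩
    refine ⟨⟨s, ?_⟩, rfl⟩
    simp only [List.length_append] at h
    omega

lemma card_below (L : ℕ) (y : List Bool) : (below L y).card = 2 ^ L := by
  unfold below
  rw [card_image_of_injective, card_univ, card_vector, Fintype.card_bool]
  intro s s' h
  exact List.Vector.toList_injective (List.append_cancel_right h)

lemma leafCount_append (d : ℕ) (y : List Bool) (u v : List (List Bool)) :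
    leafCount d y (u ++ v) = leafCount d y u + leafCount d y v := by
  unfold leafCount
  rw [List.countP_append]

lemma sum_leafCount_le {d L : ℕ} (y : List Bool) (w : List (List Bool)) :
    ∑ z ∈ below L y, leafCount d z w ≤ leafCount d y w := by
  induction w with
  | nil => simp [leafCount]
  | cons n w ih =>
    have h1 : ∀ z : List Bool, leafCount d z (n :: w) =
        leafCount d z w + if z <:+ n ∧ n.length = d then 1 else 0 := by
      intro z
      unfold leafCount
      rw [List.countP_cons]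
      simp
    simp_rw [h1]
    rw [sum_add_distrib]
    refine Nat.add_le_add ih ?_
    rw [sum_ite, sum_const_zero, add_zero, sum_const, smul_eq_mul, mul_one]
    split_ifs with h
    · refine card_le_one.2 fun a ha b hb => ?_
      rw [mem_filter, mem_below] at ha hb
      rcases comparable ha.2.1 hb.2.1 with h2 | h2
      · exact h2.eq_of_length (by rw [ha.1.2, hb.1.2])
      · exact (h2.eq_of_length (by rw [ha.1.2, hb.1.2])).symm
    · rw [Nat.le_zero, card_eq_zero, filter_eq_empty_iff]
      rintro z hz ⟨h2, h3⟩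
      rw [mem_below] at hz
      exact h ⟨hz.1.trans h2, h3⟩

lemma card_le_leafCount {d e : ℕ} {y : List Bool} {w : List (List Bool)} (hd : y.length + e = d)
    (hf : Full d y w) : 2 ^ e ≤ leafCount d y w := by
  rw [← card_below e y]
  unfold leafCount
  rw [List.countP_eq_length_filter]
  refine le_trans (card_le_card ?_) (List.toFinset_card_le _)
  intro z hz
  rw [mem_below] at hz
  rw [List.mem_toFinset, List.mem_filter]
  refine ⟨hf z hz.1 (by omega), ?_⟩
  simp only [decide_eq_true_eq]
  exact ⟨hz.1, by omega⟩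

/-- If all intervals of the word have at most `b` missing children, the leaves are read often. -/
lemma leafCount_ge {d b : ℕ} : ∀ (m e : ℕ) (y : List Bool) (w : List (List Bool)),
    (∀ I : List (List Bool), I <:+: w → (missing d I []).card ≤ b) →
    y.length + ((8 * b + 1) * m + e) = d → Full d y w →
    3 ^ m * 2 ^ (8 * b * m + e) ≤ leafCount d y w := by
  intro m
  induction m with
  | zero =>
    intro e y w _ hd hf
    simp only [pow_zero, one_mul, mul_zero, zero_add]
    exact card_le_leafCount (by omega) hf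
  | succ m ih =>
    intro e y w hw hd hf
    classical
    set X : ℕ := 3 ^ m * 2 ^ (8 * b * m + e) with hX
    set Z : Finset (List Bool) := (below (8 * b + 1) y).filter fun z => Single d w z with hZ
    have hlen : y.length + (8 * b + 1) + ((8 * b + 1) * m + e) = d := by
      rw [← hd]
      ring
    have hfull : ∀ z ∈ below (8 * b + 1) y, Full d z w := fun z hz n hn hnd =>
      hf n ((mem_below.1 hz).1.trans hn) hnd
    have h1 : Z.card ≤ 2 ^ (8 * b) := by
      refine card_single_le hw (y := y) (by omega) hf Z fun z hz => ?_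
      rw [hZ, mem_filter, mem_below] at hz
      exact ⟨hz.1.2, hz.1.1, hz.2⟩
    have h2 : ∀ z ∈ below (8 * b + 1) y, (if Single d w z then X else 2 * X) ≤
        leafCount d z w := by
      intro z hz
      have hz' := mem_below.1 hz
      split_ifs with hs
      · exact ih e z w hw (by rw [hz'.2]; exact hlen) (hfull z hz)
      · unfold Single at hs
        push Not at hs
        obtain ⟨t, ha, hb⟩ := hs
        have h3 := ih e z (w.take t)
          (fun I hI => hw I (hI.trans (List.take_prefix t w).isInfix)) (by rw [hz'.2]; exact hlen) ha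
        have h4 := ih e z (w.drop t)
          (fun I hI => hw I (hI.trans (List.drop_suffix t w).isInfix)) (by rw [hz'.2]; exact hlen) hb
        have h5 := leafCount_append d z (w.take t) (w.drop t)
        rw [List.take_append_drop] at h5
        rw [h5]
        omega
    have h3 : 3 ^ (m + 1) * 2 ^ (8 * b * (m + 1) + e) ≤
        ∑ z ∈ below (8 * b + 1) y, (if Single d w z then X else 2 * X) := by
      rw [sum_ite, sum_const, sum_const, smul_eq_mul, smul_eq_mul]
      have h4 := card_filter_add_card_filter_not (s := below (8 * b + 1) y)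
        (fun z => Single d w z)
      rw [card_below] at h4
      rw [← hZ] at h4 ⊢
      have h5 : 3 ^ (m + 1) * 2 ^ (8 * b * (m + 1) + e) = 3 * 2 ^ (8 * b) * X := by
        rw [hX]
        ring
      rw [h5]
      have h6 : (2 : ℕ) ^ (8 * b + 1) = 2 * 2 ^ (8 * b) := by ring
      rw [h6] at h4
      nlinarith [Nat.zero_le X]
    exact h3.trans ((sum_le_sum h2).trans (sum_leafCount_le y w))

end Pool.Agent.V7H70.TE
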