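import Pool.Agent.V7H70.TE.Mix

/-!
# Counting
-/

set_option autoImplicit false

namespace Pool.Agent.V7H70.TE

open Finset

/-- The nodes of the tree of depth `d`. -/
def levels (d : ℕ) : Finset (List Bool) := (range (d + 1)).biUnion fun e => below e []

lemma mem_levels {d : ℕ} {p : List Bool} : p ∈ levels d ↔ p.length ≤ d := by
  unfold levels
  simp only [mem_biUnion, mem_range, mem_below, List.length_nil, zero_add]
  constructor
  · rintro ⟨e, he, -, h⟩
    omega
  · intro h
    exact ⟨p.length, by omega, List.nil_suffix, rfl⟩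

lemma card_levels_le (d : ℕ) : (levels d).card ≤ 2 ^ (d + 1) := by
  unfold levels
  refine card_biUnion_le.trans ?_
  simp only [card_below]
  have : ∑ e ∈ range (d + 1), 2 ^ e = 2 ^ (d + 1) - 1 := by
    rw [Nat.geomSum_eq (le_refl 2)]
    simp
  rw [this]
  exact Nat.sub_le _ _

lemma missing_congr {d : ℕ} {w w' : List (List Bool)} {y : List Bool}
    (h : w.toFinset = w'.toFinset) : missing d w y = missing d w' y := by
  ext e
  rw [mem_missing, mem_missing, ← List.mem_toFinset, h, List.mem_toFinset,
    ← List.mem_toFinset (l := w) (a := e.2 :: e.1), h, List.mem_toFinset]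

/-- The missing children. -/
def children (M : Finset (List Bool × Bool)) : Finset (List Bool) := M.image fun e => e.2 :: e.1

lemma card_children (M : Finset (List Bool × Bool)) : (children M).card = M.card := by
  unfold children
  refine card_image_of_injective _ ?_
  rintro ⟨p, c⟩ ⟨p', c'⟩ h
  simp only [List.cons.injEq] at h
  rw [h.1, h.2]

lemma mem_children {M : Finset (List Bool × Bool)} {c : Bool} {p : List Bool} :
    c :: p ∈ children M ↔ (p, c) ∈ M := by
  unfold children
  rw [mem_image]
  constructor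
  · rintro ⟨e, he, h⟩
    rw [List.cons.injEq] at h
    rw [← h.1, ← h.2]
    exact he
  · intro h
    exact ⟨(p, c), h, rfl⟩

lemma children_subset {d : ℕ} {w : List (List Bool)} {p : List Bool}
    (hp : p ∈ children (missing d w [])) : p ≠ [] ∧ p.length ≤ d ∧ p ∉ w := by
  unfold children at hp
  rw [mem_image] at hp
  obtain ⟨e, he, rfl⟩ := hp
  rw [mem_missing] at he
  refine ⟨by simp, ?_, he.2.2.1⟩
  simp only [List.length_cons]
  omega

open scoped Classical in
lemma count {S : Type} [Fintype S] {d k : ℕ} {B : NBP (Fin (places d k).length) Letter S}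
    {z : Fin k} (hk : 2 ≤ k) (hB : DecidesRoot d B z) (hT : Thrifty d k B) (b : ℕ)
    (h : ∀ x : List Bool → Fin k, x [] = z → ∃ l₁ l₂ l₃ : Tests d k,
      B.Accepting (letters d (ofVal z x)) (l₁ ++ (l₂ ++ l₃)) ∧
        b ≤ (missing d (nodes l₂) []).card) :
    k ^ b ≤ Fintype.card S ^ 2 * (2 ^ (d + 1)).choose b := by
  set N₀ : Finset (List Bool) := (levels d).erase [] with hN₀
  let ext : (N₀ → Fin k) → List Bool → Fin k := fun x p => if h : p ∈ N₀ then x ⟨p, h⟩ else z
  have ext_nil : ∀ x, ext x [] = z := by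
    intro x
    have : [] ∉ N₀ := by simp [hN₀]
    simp only [ext, this, dif_neg, not_false_eq_true]
  have ext_out : ∀ x y p, p ∉ N₀ → ext x p = ext y p := by
    intro x y p hp
    simp only [ext, hp, dif_neg, not_false_eq_true]
  choose f₁ f₂ f₃ hacc hcard using fun x : N₀ → Fin k => h (ext x) (ext_nil x)
  have hsplit : ∀ x : N₀ → Fin k, ∃ s t : S, B.Walk B.source s (f₁ x) ∧ B.Walk s t (f₂ x) ∧
      B.Walk t B.sink (f₃ x) := by
    intro x
    obtain ⟨s, h1, h2⟩ := walk_split (hacc x).1 _ _ rfl
    obtain ⟨t, h3, h4⟩ := walk_split h2 _ _ rfl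
    exact ⟨s, t, h1, h3, h4⟩
  choose s t hw1 hw2 hw3 using hsplit
  have hsub : ∀ x : N₀ → Fin k, ∃ D : Finset (List Bool),
      D ⊆ children (missing d (nodes (f₂ x)) []) ∧ D.card = b := by
    intro x
    refine exists_subset_card_eq ?_
    rw [card_children]
    exact hcard x
  choose D hDm hDc using hsub
  have hDN : ∀ x, D x ⊆ N₀ := by
    intro x p hp
    obtain ⟨h1, h2, -⟩ := children_subset (hDm x hp)
    rw [hN₀, mem_erase, mem_levels]
    exact ⟨h1, h2⟩
  let key : (N₀ → Fin k) → S × S × Finset (List Bool) := fun x => (s x, t x, D x)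
  have hk0 : 0 < k := by omega
  have hb : b ≤ N₀.card := by
    have x₀ : N₀ → Fin k := fun _ => z
    rw [← hDc x₀]
    exact card_le_card (hDN x₀)
  have hfib : ∀ a ∈ (univ : Finset (N₀ → Fin k)).image key,
      ((univ : Finset (N₀ → Fin k)).filter fun x => key x = a).card ≤ k ^ (N₀.card - b) := by
    intro a ha
    rw [mem_image] at ha
    obtain ⟨x₀, -, rfl⟩ := ha
    let res : (N₀ → Fin k) → ((N₀ \ D x₀ : Finset (List Bool)) → Fin k) :=
      fun x p => ext x p.1
    have hinj : Set.InjOn res
        ((univ : Finset (N₀ → Fin k)).filter fun x => key x = key x₀ : Finset (N₀ → Fin k)) := by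
      intro x hx y hy hxy
      simp only [coe_filter, mem_univ, true_and, Set.mem_ofPred_eq] at hx hy
      have hxk : s x = s x₀ ∧ t x = t x₀ ∧ D x = D x₀ := by simpa [key] using hx
      have hyk : s y = s x₀ ∧ t y = t x₀ ∧ D y = D x₀ := by simpa [key] using hy
      have h1 : ∀ p, p ∉ D x₀ → ext x p = ext y p := by
        intro p hp
        by_cases hpN : p ∈ N₀
        · have := congrFun hxy ⟨p, mem_sdiff.2 ⟨hpN, hp⟩⟩
          exact this
        · exact ext_out x y p hpN
      have h2 : ∀ p ∈ nodes (f₂ y), ext x p = ext y p := by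
        intro p hp
        refine h1 p ?_
        intro hpD
        rw [← hyk.2.2] at hpD
        exact (children_subset (hDm y hpD)).2.2 hp
      have h3 : ∀ p ∈ D x₀, ext x p = ext y p := by
        intro p hp
        have hpx := hDm x (by rw [hxk.2.2]; exact hp)
        have hpy := hDm y (by rw [hyk.2.2]; exact hp)
        obtain ⟨hp0, -, -⟩ := children_subset hpx
        cases p with
        | nil => exact absurd rfl hp0
        | cons c p =>
          rw [mem_children] at hpx hpy
          refine exchange hk hB hT (hw1 x) (hw2 x) (hw3 x) (hacc x) (m₂ := f₂ y) ?_ (hacc y) h2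
            hpx hpy
          rw [hxk.1, hxk.2.1, ← hyk.1, ← hyk.2.1]
          exact hw2 y
      funext p
      have h4 : ext x p.1 = ext y p.1 := by
        by_cases hp : p.1 ∈ D x₀
        · exact h3 _ hp
        · exact h1 _ hp
      simpa only [ext, p.2, dif_pos] using h4
    have h5 : ((univ : Finset (N₀ → Fin k)).filter fun x => key x = key x₀).card ≤
        (univ : Finset ((N₀ \ D x₀ : Finset (List Bool)) → Fin k)).card :=
      card_le_card_of_injOn res (fun _ _ => mem_coe.2 (mem_univ _)) hinj
    refine h5.trans ?_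
    rw [card_univ, Fintype.card_fun, Fintype.card_fin, Fintype.card_coe,
      card_sdiff_of_subset (hDN x₀), hDc]
  have h1 := card_le_mul_card_image (univ : Finset (N₀ → Fin k)) _ hfib
  rw [card_univ, Fintype.card_fun, Fintype.card_fin, Fintype.card_coe] at h1
  have h2 : ((univ : Finset (N₀ → Fin k)).image key).card ≤
      Fintype.card S ^ 2 * (2 ^ (d + 1)).choose b := by
    have hsub : (univ : Finset (N₀ → Fin k)).image key ⊆
        (univ : Finset S) ×ˢ ((univ : Finset S) ×ˢ (levels d).powersetCard b) := by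
      intro a ha
      rw [mem_image] at ha
      obtain ⟨x, -, rfl⟩ := ha
      simp only [key, mem_product, mem_univ, true_and, mem_powersetCard]
      exact ⟨(hDN x).trans (erase_subset _ _), hDc x⟩
    refine (card_le_card hsub).trans ?_
    rw [card_product, card_product, card_univ, card_powersetCard, ← mul_assoc, ← sq]
    exact Nat.mul_le_mul_left _ (Nat.choose_le_choose b (card_levels_le d))
  have h3 : k ^ N₀.card = k ^ b * k ^ (N₀.card - b) := by
    rw [← pow_add]
    congr 1
    omega
  rw [h3, mul_comm (k ^ b)] at h1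
  have h4 : 0 < k ^ (N₀.card - b) := by positivity
  exact (Nat.le_of_mul_le_mul_left h1 h4).trans h2

/-- The size of thrifty branching programs with few visits to leaves. -/
lemma size_bound {S : Type} [Fintype S] {d k : ℕ} {B : NBP (Fin (places d k).length) Letter S}
    {z : Fin k} (hk : 2 ≤ k) (hB : DecidesRoot d B z) (hT : Thrifty d k B) (b : ℕ)
    (h : ∀ I : Inst k, I.value d [] = z → ∃ l, B.Accepting (letters d I) l ∧
      leafVisits l < 3 ^ (d / (8 * b + 1)) * 2 ^ (d - d / (8 * b + 1))) :
    k ^ (b + 1) ≤ Fintype.card S ^ 2 * (2 ^ (d + 1)).choose (b + 1) := by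
  refine count hk hB hT (b + 1) fun x hx => ?_
  obtain ⟨l, hl, hc⟩ := h (ofVal z x) (by rw [value_ofVal, hx])
  have hf : Full d [] (squash (nodes l)) := fun n h1 h2 =>
    (mem_squash _).2 (full_of_accepting hk hB hT hl n h1 h2)
  by_contra hcon
  push Not at hcon
  have hI : ∀ I : List (List Bool), I <:+: squash (nodes l) → (missing d I []).card ≤ b := by
    rintro I ⟨u, v, huv⟩
    obtain ⟨u₁₂, u₃, h0, h12, h3⟩ := squash_split _ _ _ huv.symm
    obtain ⟨u₁, u₂, rfl, h1, h2⟩ := squash_split _ _ _ h12
    unfold nodes at h0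
    rw [List.filterMap_eq_append_iff] at h0
    obtain ⟨l₁₂, l₃, rfl, h12', h3'⟩ := h0
    rw [List.filterMap_eq_append_iff] at h12'
    obtain ⟨l₁, l₂, rfl, h1', h2'⟩ := h12'
    have := hcon l₁ l₂ l₃ (by rwa [← List.append_assoc])
    have h4 : nodes l₂ = u₂ := h2'
    have h5 : (nodes l₂).toFinset = I.toFinset := by
      ext p
      rw [List.mem_toFinset, List.mem_toFinset, h4, ← h2, mem_squash]
    rw [missing_congr h5] at this
    omega
  set m := d / (8 * b + 1) with hm
  have hmd : (8 * b + 1) * m ≤ d := Nat.mul_div_le d (8 * b + 1)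
  have h1 := leafCount_ge (d := d) (b := b) m (d - (8 * b + 1) * m) [] (squash (nodes l)) hI
    (by simp only [List.length_nil]; omega) hf
  rw [← leafVisits_eq] at h1
  have h2 : 8 * b * m + (d - (8 * b + 1) * m) = d - m := by
    have : (8 * b + 1) * m = 8 * b * m + m := by ring
    omega
  rw [h2] at h1
  omega

lemma pow_real (d m : ℕ) (h : m ≤ d) : ((3 ^ m * 2 ^ (d - m) : ℕ) : ℝ) = (3 / 2 : ℝ) ^ m * 2 ^ d := by
  obtain ⟨e, rfl⟩ := Nat.exists_eq_add_of_le h
  push_cast
  rw [Nat.add_sub_cancel_left, pow_add, div_pow]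
  field_simp

end Pool.Agent.V7H70.TE
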