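import Mathlib

/-!
# Tree evaluation, a deterministic pushdown automaton for it, and branching programs
-/

set_option autoImplicit false

namespace Pool.Agent.V7H70.TE

/-- A one-way deterministic pushdown automaton without `ε`-moves, with input alphabet `A`, states `Q`
and stack alphabet `Γ`.  `step q x a` is the action in the state `q` with the top symbol `x` of the
stack (`none` if the stack is empty) when the letter `a` is read: the automaton rejects (`none`), or
it goes to a new state and replaces the top symbol by a list of symbols. -/
structure DPDA (A Q Γ : Type) where
  start : Q
  accept : Set Q
  step : Q → Option Γ → A → Option (Q × List Γ)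

/-- The configuration after reading a letter; a configuration is a state with a stack (the top
symbol is the first one), or `none` after rejection. -/
def DPDA.next {A Q Γ : Type} (M : DPDA A Q Γ) : Option (Q × List Γ) → A → Option (Q × List Γ)
  | none, _ => none
  | some (q, []), a => M.step q none a
  | some (q, x :: s), a => (M.step q (some x) a).map fun r => (r.1, r.2 ++ s)

/-- The automaton accepts the word (in an accepting state; it starts with the empty stack). -/
def DPDA.Accepts {A Q Γ : Type} (M : DPDA A Q Γ) (w : List A) : Prop :=
  ∃ q s, w.foldl M.next (some (M.start, [])) = some (q, s) ∧ q ∈ M.accept

/-- A nondeterministic branching program with nodes `S`, reading words `w : ι → A`.  Every pair of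
nodes can be joined by free edges (`none`) and by edges that test whether the letter at the place `i`
belongs to a set `X` (`some (i, X)`). -/
structure NBP (ι A S : Type) where
  source : S
  sink : S
  edge : S → S → Option (ι × Set A) → Prop

/-- `B.Walk s t l`: there is a path of the branching program from `s` to `t` with the list `l` of
tests. -/
inductive NBP.Walk {ι A S : Type} (B : NBP ι A S) : S → S → List (ι × Set A) → Prop
  | nil (s : S) : Walk B s s []
  | free {s t u : S} {l : List (ι × Set A)} (h : B.edge s t none) (hw : Walk B t u l) : Walk B s u l
  | test {s t u : S} {x : ι × Set A} {l : List (ι × Set A)} (h : B.edge s t (some x))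
      (hw : Walk B t u l) : Walk B s u (x :: l)

/-- `l` is the list of the tests of an accepting path for `w`: a path from the source to the sink,
all of whose tests are passed. -/
def NBP.Accepting {ι A S : Type} (B : NBP ι A S) (w : ι → A) (l : List (ι × Set A)) : Prop :=
  B.Walk B.source B.sink l ∧ ∀ x ∈ l, w x.1 ∈ x.2

/-- An instance of the tree evaluation problem with values in `{0, …, k - 1}`: a function
`table p` of two variables for every inner node `p`, and a value `leaf p` for every leaf `p`. The
nodes of the complete binary tree of depth `d` are the lists of Booleans of length at most `d`; the
root is the empty list, and the children of `p` are `false :: p` and `true :: p`. -/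
structure Inst (k : ℕ) where
  table : List Bool → Fin k → Fin k → Fin k
  leaf : List Bool → Fin k

/-- The value at a node which is `j` levels above the leaves. -/
def Inst.val {k : ℕ} (I : Inst k) : ℕ → List Bool → Fin k
  | 0, p => I.leaf p
  | j + 1, p => I.table p (I.val j (false :: p)) (I.val j (true :: p))

/-- The places of the encoding of an instance.  `leafCell p i` is the place of the `i`-th digit of
the value at the leaf `p`, and `cell p a b i` is the place of the `i`-th digit of `table p a b`. The
other places have constant letters. -/
inductive Place (k : ℕ) : Type
  | leafStart (p : List Bool)
  | leafCell (p : List Bool) (i : Fin k)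
  | block (p : List Bool) (b : Fin k)
  | entry (p : List Bool) (a b : Fin k)
  | cell (p : List Bool) (a b : Fin k) (i : Fin k)
  | blockEnd (p : List Bool) (b : Fin k)
  | tableEnd (p : List Bool)
  | last

/-- The letters: `V` and `O` are the digits of the unary code `V … V O … O` of a value. -/
inductive Letter : Type
  | L | V | O | B | X | C | F | Z
  deriving DecidableEq, Fintype

/-- The letter at a place. -/
def Inst.letter {k : ℕ} (I : Inst k) : Place k → Letter
  | Place.leafStart _ => Letter.L
  | Place.leafCell p i => if i < I.leaf p then Letter.V else Letter.O
  | Place.block _ _ => Letter.B
  | Place.entry _ _ _ => Letter.X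
  | Place.cell p a b i => if i < I.table p a b then Letter.V else Letter.O
  | Place.blockEnd _ _ => Letter.C
  | Place.tableEnd _ => Letter.F
  | Place.last => Letter.Z

/-- The places of the table of the node `p`. -/
def tablePlaces (k : ℕ) (p : List Bool) : List (Place k) :=
  ((List.finRange k).flatMap fun b => Place.block p b ::
    (((List.finRange k).flatMap fun a => Place.entry p a b ::
      (List.finRange k).map (Place.cell p a b)) ++ [Place.blockEnd p b])) ++ [Place.tableEnd p]

/-- The places of the subtree of the node `p`, which is `j` levels above the leaves, in postorder. -/
def subPlaces (k : ℕ) : ℕ → List Bool → List (Place k)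
  | 0, p => Place.leafStart p :: (List.finRange k).map (Place.leafCell p)
  | j + 1, p => subPlaces k j (false :: p) ++ (subPlaces k j (true :: p) ++ tablePlaces k p)

/-- The places of the encoding of the instances of depth `d`. -/
def places (d k : ℕ) : List (Place k) := subPlaces k d [] ++ [Place.last]

/-- The encoding of an instance. -/
def word (d : ℕ) {k : ℕ} (I : Inst k) : List Letter := (places d k).map I.letter

/-- The encoding of an instance as a function on the numbers of the places. -/
def letters (d : ℕ) {k : ℕ} (I : Inst k) : Fin (places d k).length → Letter :=
  fun i => I.letter ((places d k).get i)

/-- The branching program accepts exactly those encodings of instances which are accepted by the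
automaton (nothing is required for other words). -/
def Decides {Q Γ S : Type} (d k : ℕ) (B : NBP (Fin (places d k).length) Letter S)
    (M : DPDA Letter Q Γ) : Prop :=
  ∀ I : Inst k, (∃ l, B.Accepting (letters d I) l) ↔ M.Accepts (word d I)

/-- The branching program is thrifty: on every accepting path for the encoding of an instance, the
digits of `table p a b` are tested only if `a` and `b` are the values at the children of `p`. -/
def Thrifty {S : Type} (d k : ℕ) (B : NBP (Fin (places d k).length) Letter S) : Prop :=
  ∀ (I : Inst k) (l : List (Fin (places d k).length × Set Letter)), B.Accepting (letters d I) l →
    ∀ x ∈ l, ∀ (p : List Bool) (a b i : Fin k), (places d k).get x.1 = Place.cell p a b i →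
      a = I.val (d - (p.length + 1)) (false :: p) ∧ b = I.val (d - (p.length + 1)) (true :: p)

/-- The node to which a digit belongs. -/
def Place.owner {k : ℕ} : Place k → Option (List Bool)
  | Place.leafCell p _ => some p
  | Place.cell p _ _ _ => some p
  | _ => none

/-- The tests of a path. -/
abbrev Tests (d k : ℕ) : Type := List (Fin (places d k).length × Set Letter)

/-- The list of the nodes whose digits are tested. -/
def nodes {d k : ℕ} (l : Tests d k) : List (List Bool) :=
  l.filterMap fun x => ((places d k).get x.1).owner

/-- Every block of equal consecutive members of a list is replaced by one member. -/
def squash : List (List Bool) → List (List Bool)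
  | [] => []
  | a :: l => if (squash l).head? = some a then squash l else a :: squash l

/-- The number of the visits to leaves: consecutive tests of digits of the same leaf are counted as
one visit. -/
def leafVisits {d k : ℕ} (l : Tests d k) : ℕ :=
  (squash (nodes l)).countP fun p => decide (p.length = d)

end Pool.Agent.V7H70.TE
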