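import Pool.Agent.V7H70.TE.Count
import Pool.Agent.V7H70.TE.Aut

/-!
# The time-space tradeoff
-/

set_option autoImplicit false

namespace Pool.Agent.V7H70.TE

open Finset

lemma length_tablePlaces (k : ℕ) (p : List Bool) :
    (tablePlaces k p).length = k * (1 + (k * (1 + k) + 1)) + 1 := by
  have h1 : ∀ (n m : ℕ) (f : Fin n → List (Place k)), (∀ a, (f a).length = m) →
      ((List.finRange n).flatMap f).length = n * m := by
    intro n m f hf
    rw [List.length_flatMap]
    have : (List.finRange n).map (fun a => (f a).length) = (List.finRange n).map fun _ => m :=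
      List.map_congr_left fun a _ => hf a
    rw [this]
    simp
  unfold tablePlaces
  rw [List.length_append, h1 k (1 + (k * (1 + k) + 1))]
  · rfl
  · intro b
    rw [List.length_cons, List.length_append, h1 k (1 + k)]
    · simp
      ring
    · intro a
      simp
      ring

lemma length_subPlaces (k : ℕ) : ∀ (j : ℕ) (p : List Bool),
    (subPlaces k j p).length + (k + 1) ^ 3 ≤ 2 ^ (j + 1) * (k + 1) ^ 3 := by
  intro j
  induction j with
  | zero =>
    intro p
    simp only [subPlaces, List.length_cons, List.length_map, List.length_finRange]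
    have h1 : k + 1 ≤ (k + 1) ^ 3 := Nat.le_self_pow (by norm_num) _
    have h2 : 2 ^ (0 + 1) * (k + 1) ^ 3 = (k + 1) ^ 3 + (k + 1) ^ 3 := by ring
    omega
  | succ j ih =>
    intro p
    simp only [subPlaces, List.length_append, length_tablePlaces]
    have h1 := ih (false :: p)
    have h2 := ih (true :: p)
    have h3 : k * (1 + (k * (1 + k) + 1)) + 1 ≤ (k + 1) ^ 3 := by nlinarith [sq_nonneg k]
    have h4 : 2 ^ (j + 1 + 1) * (k + 1) ^ 3 = 2 * (2 ^ (j + 1) * (k + 1) ^ 3) := by ring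
    rw [h4]
    omega

lemma length_places_le (d k : ℕ) : (places d k).length ≤ 2 ^ (d + 1) * (k + 1) ^ 3 := by
  have h1 := length_subPlaces k d []
  have h2 : 1 ≤ (k + 1) ^ 3 := Nat.one_le_pow _ _ (by omega)
  simp only [places, List.length_append, List.length_singleton]
  omega

lemma decidesRoot {S : Type} {d k : ℕ} {B : NBP (Fin (places d k).length) Letter S} (hk : 2 ≤ k)
    (hB : Decides d k B aut) : DecidesRoot d B ⟨0, by omega⟩ := by
  intro I
  rw [hB I, accepts_word, Fin.ext_iff]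
  rfl

theorem tradeoff {S : Type} [Fintype S] {d k b : ℕ} {B : NBP (Fin (places d k).length) Letter S}
    (hk : 2 ≤ k) (hT : Thrifty d k B) (hB : Decides d k B aut)
    (h : ∀ I : Inst k, aut.Accepts (word d I) → ∃ l, B.Accepting (letters d I) l ∧
      (leafVisits l : ℝ) < (3 / 2) ^ (d / (8 * b + 1)) * 2 ^ d) :
    k ^ (b + 1) ≤ (2 ^ (d + 1)).choose (b + 1) * Fintype.card S ^ 2 := by
  rw [mul_comm]
  refine size_bound hk (decidesRoot hk hB) hT b fun I hI => ?_
  obtain ⟨l, h1, h2⟩ := h I (by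
    rw [accepts_word]
    exact congrArg Fin.val hI)
  refine ⟨l, h1, ?_⟩
  rw [← pow_real d _ (Nat.div_le_self _ _)] at h2
  exact_mod_cast h2

theorem tradeoff' {S : Type} [Fintype S] {d k c : ℕ} {B : NBP (Fin (places d k).length) Letter S}
    (hk : 4 ^ (d + 1) ≤ k) (hT : Thrifty d k B) (hB : Decides d k B aut)
    (hS : Fintype.card S ≤ k ^ c) :
    ∃ I : Inst k, aut.Accepts (word d I) ∧ ∀ l, B.Accepting (letters d I) l →
      (3 / 2 : ℝ) ^ (d / (32 * c + 1)) * 2 ^ d ≤ leafVisits l := by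
  by_contra hcon
  push Not at hcon
  have hk2 : 2 ≤ k := by
    have h1 : 4 ^ 1 ≤ 4 ^ (d + 1) := Nat.pow_le_pow_right (by norm_num) (by omega)
    omega
  have e : 32 * c + 1 = 8 * (4 * c) + 1 := by ring
  rw [e] at hcon
  have h1 := (tradeoff hk2 hT hB hcon).trans
    (Nat.mul_le_mul (Nat.choose_le_pow _ _) (Nat.pow_le_pow_left hS 2))
  have h2 := Nat.pow_le_pow_left h1 2
  have h3 : ((2 ^ (d + 1)) ^ (4 * c + 1) * (k ^ c) ^ 2) ^ 2 =
      (4 ^ (d + 1)) ^ (4 * c + 1) * k ^ (4 * c) := by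
    have h : 4 ^ (d + 1) = (2 ^ (d + 1)) ^ 2 := by
      rw [← pow_mul, mul_comm, pow_mul]
      norm_num
    rw [h]
    generalize 2 ^ (d + 1) = A
    ring
  rw [h3] at h2
  have h4 : (4 ^ (d + 1)) ^ (4 * c + 1) * k ^ (4 * c) ≤ k ^ (4 * c + 1) * k ^ (4 * c) :=
    Nat.mul_le_mul_right _ (Nat.pow_le_pow_left hk _)
  have h5 : k ^ (4 * c + 1) * k ^ (4 * c) * k = (k ^ (4 * c + 1)) ^ 2 := by ring
  have h6 : 0 < k ^ (4 * c + 1) * k ^ (4 * c) := by positivity
  nlinarith

end Pool.Agent.V7H70.TE
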