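import Pool.Agent.V7H70.TE.Comb
import Pool.Agent.V7H70.TE.Defs

/-!
# The exchange argument
-/

set_option autoImplicit false

namespace Pool.Agent.V7H70.TE

open Finset

lemma owner_eq_some {k : ℕ} {q : Place k} {p : List Bool} (h : q.owner = some p) :
    (∃ i, q = Place.leafCell p i) ∨ ∃ a b i, q = Place.cell p a b i := by
  cases q <;> simp [Place.owner] at h <;> subst h
  · exact Or.inl ⟨_, rfl⟩
  · exact Or.inr ⟨_, _, _, rfl⟩

lemma mem_tablePlaces_leaf {k : ℕ} {p r : List Bool} {i : Fin k}
    (h : Place.leafCell r i ∈ tablePlaces k p) : False := by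
  simp [tablePlaces] at h

lemma mem_tablePlaces_cell {k : ℕ} {p r : List Bool} {a b i : Fin k}
    (h : Place.cell r a b i ∈ tablePlaces k p) : r = p := by
  simp [tablePlaces] at h
  exact h.symm

lemma subPlaces_leaf {k : ℕ} {r : List Bool} {i : Fin k} : ∀ (j : ℕ) (p : List Bool),
    Place.leafCell r i ∈ subPlaces k j p → r.length = p.length + j := by
  intro j
  induction j with
  | zero =>
    intro p h
    simp [subPlaces] at h
    rw [← h]
    rfl
  | succ j ih =>
    intro p h
    simp only [subPlaces, List.mem_append] at h
    rcases h with h | h | h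
    · have := ih _ h
      simp only [List.length_cons] at this
      omega
    · have := ih _ h
      simp only [List.length_cons] at this
      omega
    · exact (mem_tablePlaces_leaf h).elim

lemma subPlaces_cell {k : ℕ} {r : List Bool} {a b i : Fin k} : ∀ (j : ℕ) (p : List Bool),
    Place.cell r a b i ∈ subPlaces k j p → r.length < p.length + j := by
  intro j
  induction j with
  | zero =>
    intro p h
    simp [subPlaces] at h
  | succ j ih =>
    intro p h
    simp only [subPlaces, List.mem_append] at h
    rcases h with h | h | h
    · have := ih _ h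
      simp only [List.length_cons] at this
      omega
    · have := ih _ h
      simp only [List.length_cons] at this
      omega
    · rw [mem_tablePlaces_cell h]
      omega

lemma get_leaf {d k : ℕ} {j : Fin (places d k).length} {r : List Bool} {i : Fin k}
    (h : (places d k).get j = Place.leafCell r i) : r.length = d := by
  have h1 : Place.leafCell r i ∈ places d k := by rw [← h]; exact List.get_mem _ _
  simp only [places, List.mem_append, List.mem_singleton, reduceCtorEq, or_false] at h1
  have := subPlaces_leaf d [] h1
  simpa using this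

lemma get_cell {d k : ℕ} {j : Fin (places d k).length} {r : List Bool} {a b i : Fin k}
    (h : (places d k).get j = Place.cell r a b i) : r.length < d := by
  have h1 : Place.cell r a b i ∈ places d k := by rw [← h]; exact List.get_mem _ _
  simp only [places, List.mem_append, List.mem_singleton, reduceCtorEq, or_false] at h1
  have := subPlaces_cell d [] h1
  simpa using this

lemma nodes_append {d k : ℕ} (l l' : Tests d k) : nodes (l ++ l') = nodes l ++ nodes l' :=
  List.filterMap_append

lemma mem_nodes {d k : ℕ} {l : Tests d k} {p : List Bool} (h : p ∈ nodes l) :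
    ∃ x ∈ l, (p.length = d ∧ ∃ i, (places d k).get x.1 = Place.leafCell p i) ∨
      (p.length < d ∧ ∃ a b i, (places d k).get x.1 = Place.cell p a b i) := by
  unfold nodes at h
  rw [List.mem_filterMap] at h
  obtain ⟨x, hx, h⟩ := h
  refine ⟨x, hx, ?_⟩
  rcases owner_eq_some h with ⟨i, hi⟩ | ⟨a, b, i, hi⟩
  · exact Or.inl ⟨get_leaf hi, i, hi⟩
  · exact Or.inr ⟨get_cell hi, a, b, i, hi⟩

lemma nodes_length_le {d k : ℕ} {l : Tests d k} {p : List Bool} (h : p ∈ nodes l) :
    p.length ≤ d := by
  obtain ⟨x, -, h | h⟩ := mem_nodes h
  · exact h.1.le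
  · exact h.1.le

lemma leafVisits_eq {d k : ℕ} (l : Tests d k) :
    leafVisits l = leafCount d [] (squash (nodes l)) := by
  unfold leafVisits leafCount
  congr 1
  funext n
  simp

lemma mem_squash {p : List Bool} : ∀ w : List (List Bool), p ∈ squash w ↔ p ∈ w := by
  intro w
  induction w with
  | nil => simp [squash]
  | cons a w ih =>
    unfold squash
    split_ifs with h
    · rw [ih, List.mem_cons]
      constructor
      · exact Or.inr
      · rintro (rfl | h')
        · exact ih.1 (List.mem_of_mem_head? h)
        · exact h'
    · rw [List.mem_cons, List.mem_cons, ih]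

lemma squash_split : ∀ (w u v : List (List Bool)), squash w = u ++ v →
    ∃ u' v', w = u' ++ v' ∧ squash u' = u ∧ squash v' = v := by
  intro w
  induction w with
  | nil =>
    intro u v h
    have h' := List.append_eq_nil_iff.1 h.symm
    exact ⟨[], [], rfl, h'.1.symm, h'.2.symm⟩
  | cons a w ih =>
    intro u v h
    rw [squash] at h
    split_ifs at h with ha
    · obtain ⟨u', v', rfl, h1, h2⟩ := ih u v h
      cases u with
      | nil =>
        refine ⟨[], a :: (u' ++ v'), rfl, rfl, ?_⟩
        rw [squash, if_pos ha, h]
        rfl
      | cons b u =>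
        refine ⟨a :: u', v', rfl, ?_, h2⟩
        rw [h, List.cons_append, List.head?_cons] at ha
        rw [squash, h1, List.head?_cons, if_pos ha]
    · cases u with
      | nil =>
        refine ⟨[], a :: w, rfl, rfl, ?_⟩
        rw [squash, if_neg ha, h]
        rfl
      | cons b u =>
        rw [List.cons_append, List.cons.injEq] at h
        obtain ⟨rfl, h⟩ := h
        obtain ⟨u', v', rfl, h1, h2⟩ := ih u v h
        refine ⟨a :: u', v', rfl, ?_, h2⟩
        have h3 : (squash u').head? ≠ some a := by
          intro h3
          apply ha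
          rw [h1] at h3
          rw [h]
          cases u with
          | nil => simp at h3
          | cons c u => simpa using h3
        rw [squash, if_neg h3, h1]

/-- The value at a node of the tree of depth `d`. -/
def Inst.value {k : ℕ} (I : Inst k) (d : ℕ) (p : List Bool) : Fin k := I.val (d - p.length) p

lemma value_leaf {k : ℕ} (I : Inst k) {d : ℕ} {p : List Bool} (h : p.length = d) :
    I.value d p = I.leaf p := by
  unfold Inst.value
  rw [h, Nat.sub_self]
  rfl

lemma value_inner {k : ℕ} (I : Inst k) {d : ℕ} {p : List Bool} (h : p.length < d) :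
    I.value d p = I.table p (I.value d (false :: p)) (I.value d (true :: p)) := by
  unfold Inst.value
  obtain ⟨j, hj⟩ : ∃ j, d - p.length = j + 1 := ⟨d - p.length - 1, by omega⟩
  rw [hj, List.length_cons, List.length_cons]
  have : d - (p.length + 1) = j := by omega
  rw [this]
  rfl

/-- The instance whose values are `x`. -/
def ofVal {k : ℕ} (z : Fin k) (x : List Bool → Fin k) : Inst k where
  table p a b := if a = x (false :: p) ∧ b = x (true :: p) then x p else z
  leaf := x

lemma value_ofVal {k : ℕ} (z : Fin k) (x : List Bool → Fin k) (d : ℕ) (p : List Bool) :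
    (ofVal z x).value d p = x p := by
  have h : ∀ (j : ℕ) (p : List Bool), (ofVal z x).val j p = x p := by
    intro j
    induction j with
    | zero => intro p; rfl
    | succ j ih =>
      intro p
      simp only [Inst.val, ih]
      simp [ofVal]
  exact h _ _

/-- The instance which contains the values of `x` and of `y`. -/
def mix {k : ℕ} (z : Fin k) (x y : List Bool → Fin k) : Inst k where
  table p a b := if a = x (false :: p) ∧ b = x (true :: p) then x p else
    if a = y (false :: p) ∧ b = y (true :: p) then y p else z
  leaf := x

lemma letters_congr {d k : ℕ} {I J : Inst k} {x : Fin (places d k).length}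
    (h1 : ∀ p i, (places d k).get x = Place.leafCell p i → I.leaf p = J.leaf p)
    (h2 : ∀ p a b i, (places d k).get x = Place.cell p a b i → I.table p a b = J.table p a b) :
    letters d I x = letters d J x := by
  unfold letters
  cases hq : (places d k).get x with
  | leafCell p i => simp only [Inst.letter, h1 p i hq]
  | cell p a b i => simp only [Inst.letter, h2 p a b i hq]
  | _ => rfl

lemma walk_append {ι A S : Type} {B : NBP ι A S} {s t u : S} {l l' : List (ι × Set A)}
    (h : B.Walk s t l) (h' : B.Walk t u l') : B.Walk s u (l ++ l') := by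
  induction h with
  | nil s => exact h'
  | free h _ ih => exact NBP.Walk.free h (ih h')
  | test h _ ih => exact NBP.Walk.test h (ih h')

lemma walk_split {ι A S : Type} {B : NBP ι A S} {s u : S} {l : List (ι × Set A)}
    (h : B.Walk s u l) : ∀ l₁ l₂, l = l₁ ++ l₂ → ∃ t, B.Walk s t l₁ ∧ B.Walk t u l₂ := by
  induction h with
  | nil s =>
    intro l₁ l₂ h
    have h' := List.append_eq_nil_iff.1 h.symm
    rw [h'.1, h'.2]
    exact ⟨s, NBP.Walk.nil s, NBP.Walk.nil s⟩
  | free h _ ih =>
    intro l₁ l₂ h'
    obtain ⟨t, h1, h2⟩ := ih l₁ l₂ h'
    exact ⟨t, NBP.Walk.free h h1, h2⟩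
  | @test s t u x l h hw ih =>
    intro l₁ l₂ h'
    cases l₁ with
    | nil =>
      rw [List.nil_append] at h'
      subst h'
      exact ⟨s, NBP.Walk.nil s, NBP.Walk.test h hw⟩
    | cons y l₁ =>
      rw [List.cons_append, List.cons.injEq] at h'
      obtain ⟨rfl, h'⟩ := h'
      obtain ⟨t, h1, h2⟩ := ih l₁ l₂ h'
      exact ⟨t, NBP.Walk.test h h1, h2⟩

section

variable {S : Type} {d k : ℕ} {B : NBP (Fin (places d k).length) Letter S} {z : Fin k}

/-- The program decides whether the value at the root is `z`. -/
def DecidesRoot (d : ℕ) {k : ℕ} (B : NBP (Fin (places d k).length) Letter S) (z : Fin k) : Prop :=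
  ∀ I : Inst k, (∃ l, B.Accepting (letters d I) l) ↔ I.value d [] = z

lemma thrifty_value (hT : Thrifty d k B) {I : Inst k} {l : Tests d k}
    (hl : B.Accepting (letters d I) l) {x : Fin (places d k).length × Set Letter} (hx : x ∈ l)
    {p : List Bool} {a b i : Fin k} (h : (places d k).get x.1 = Place.cell p a b i) :
    a = I.value d (false :: p) ∧ b = I.value d (true :: p) := hT I l hl x hx p a b i h

open scoped Classical in
/-- The instance with the value `c` at the node `n`. -/
noncomputable def change {k : ℕ} (I : Inst k) (n : List Bool) (c : Fin k) : Inst k where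
  table p a b := if p = n then c else I.table p a b
  leaf p := if p = n then c else I.leaf p

lemma value_change (I : Inst k) (n : List Bool) (hn : n.length ≤ d) (c : Fin k) :
    (change I n c).value d n = c := by
  rcases hn.lt_or_eq with h | h
  · rw [value_inner _ h]
    simp [change]
  · rw [value_leaf _ h]
    simp [change]

lemma accepting_change {I : Inst k} {l : Tests d k} (hl : B.Accepting (letters d I) l)
    {n : List Bool} (hn : n ∉ nodes l) (c : Fin k) :
    B.Accepting (letters d (change I n c)) l := by
  refine ⟨hl.1, fun x hx => ?_⟩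
  have h1 : letters d (change I n c) x.1 = letters d I x.1 := by
    have h2 : ∀ p, ((places d k).get x.1).owner = some p → p ≠ n := by
      rintro p hp rfl
      exact hn (List.mem_filterMap.2 ⟨x, hx, hp⟩)
    refine letters_congr (fun p i hq => ?_) (fun p a b i hq => ?_)
    · have := h2 p (by rw [hq]; rfl)
      simp [change, this]
    · have := h2 p (by rw [hq]; rfl)
      simp [change, this]
  rw [h1]
  exact hl.2 x hx

/-- On an accepting path all nodes are read. -/
lemma full_of_accepting (hk : 2 ≤ k) (hB : DecidesRoot d B z) (hT : Thrifty d k B) {I : Inst k}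
    {l : Tests d k} (hl : B.Accepting (letters d I) l) : Full d [] (nodes l) := by
  have hex : ∀ a : Fin k, ∃ c, c ≠ a := by
    intro a
    have : Nontrivial (Fin k) := Fin.nontrivial_iff_two_le.2 hk
    exact exists_ne a
  intro n _ hnd
  induction n with
  | nil =>
    by_contra hn
    obtain ⟨c, hc⟩ := hex z
    have h1 := accepting_change hl hn c
    have h2 := (hB _).1 ⟨l, h1⟩
    rw [value_change _ _ (by simp)] at h2
    exact hc h2
  | cons b q ih =>
    by_contra hn
    have hq := ih List.nil_suffix (by simp only [List.length_cons] at hnd; omega)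
    obtain ⟨c, hc⟩ := hex (I.value d (b :: q))
    have h1 := accepting_change hl hn c
    obtain ⟨x, hx, h | ⟨hqd, a, b', i, hi⟩⟩ := mem_nodes hq
    · simp only [List.length_cons] at hnd
      omega
    · have h2 := thrifty_value hT hl hx hi
      have h3 := thrifty_value hT h1 hx hi
      have h4 := value_change I (b :: q) hnd c
      cases b
      · rw [← h3.1, h2.1] at h4
        exact hc h4.symm
      · rw [← h3.2, h2.2] at h4
        exact hc h4.symm

/-- The exchange argument: if the accepting paths for two inputs have intervals between the same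
nodes of the program, and the inputs have the same values at the nodes which are read in the second
interval, then they have the same values at the common missing children. -/
lemma exchange (hk : 2 ≤ k) (hB : DecidesRoot d B z) (hT : Thrifty d k B)
    {x y : List Bool → Fin k} {s t : S} {l₁ l₂ l₃ m₁ m₂ m₃ : Tests d k}
    (hx1 : B.Walk B.source s l₁) (_hx2 : B.Walk s t l₂) (hx3 : B.Walk t B.sink l₃)
    (hx : B.Accepting (letters d (ofVal z x)) (l₁ ++ (l₂ ++ l₃)))
    (hy2 : B.Walk s t m₂) (hy : B.Accepting (letters d (ofVal z y)) (m₁ ++ (m₂ ++ m₃)))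
    (hxy : ∀ p ∈ nodes m₂, x p = y p)
    {e : List Bool × Bool} (he' : e ∈ missing d (nodes l₂) [])
    (he : e ∈ missing d (nodes m₂) []) :
    x (e.2 :: e.1) = y (e.2 :: e.1) := by
  -- the mixed path
  have hK : B.Accepting (letters d (mix z x y)) (l₁ ++ (m₂ ++ l₃)) := by
    refine ⟨walk_append hx1 (walk_append hy2 hx3), fun q hq => ?_⟩
    have hout : q ∈ l₁ ++ (l₂ ++ l₃) → letters d (mix z x y) q.1 ∈ q.2 := by
      intro hq
      have h1 : letters d (mix z x y) q.1 = letters d (ofVal z x) q.1 := by
        refine letters_congr (fun p i hp => rfl) (fun p a b i hp => ?_)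
        have h2 := thrifty_value hT hx hq hp
        rw [value_ofVal, value_ofVal] at h2
        simp [mix, ofVal, h2]
      rw [h1]
      exact hx.2 q hq
    have hin : q ∈ m₂ → letters d (mix z x y) q.1 ∈ q.2 := by
      intro hq
      have hq' : q ∈ m₁ ++ (m₂ ++ m₃) := by simp [hq]
      have h0 : ∀ p, ((places d k).get q.1).owner = some p → x p = y p := by
        intro p hp
        exact hxy p (List.mem_filterMap.2 ⟨q, hq, hp⟩)
      have h1 : letters d (mix z x y) q.1 = letters d (ofVal z y) q.1 := by
        refine letters_congr (fun p i hp => h0 p (by rw [hp]; rfl)) (fun p a b i hp => ?_)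
        have h2 := thrifty_value hT hy hq' hp
        rw [value_ofVal, value_ofVal] at h2
        have h3 := h0 p (by rw [hp]; rfl)
        simp [mix, ofVal, h2, h3]
      rw [h1]
      exact hy.2 q hq'
    rw [List.mem_append, List.mem_append] at hq
    rcases hq with hq | hq | hq
    · exact hout (by simp [hq])
    · exact hin hq
    · exact hout (by simp [hq])
  -- the values at the nodes which are not read in the interval are those of `x`
  have hval : ∀ u : List Bool, u.length ≤ d → u ∉ nodes l₂ → (mix z x y).value d u = x u := by
    intro u hu hun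
    have h1 := full_of_accepting hk hB hT hx u List.nil_suffix hu
    rw [nodes_append, nodes_append, List.mem_append, List.mem_append] at h1
    have h2 : u ∈ nodes (l₁ ++ l₃) := by
      rw [nodes_append, List.mem_append]
      tauto
    obtain ⟨q, hq, ⟨hud, i, hi⟩ | ⟨hud, a, b, i, hi⟩⟩ := mem_nodes h2
    · rw [value_leaf _ hud]
      rfl
    · rw [value_inner _ hud]
      have hq1 : q ∈ l₁ ++ (m₂ ++ l₃) := by
        rw [List.mem_append] at hq ⊢
        rw [List.mem_append]
        tauto
      have hq2 : q ∈ l₁ ++ (l₂ ++ l₃) := by
        rw [List.mem_append] at hq ⊢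
        rw [List.mem_append]
        tauto
      have h3 := thrifty_value hT hK hq1 hi
      have h4 := thrifty_value hT hx hq2 hi
      rw [value_ofVal, value_ofVal] at h4
      rw [← h3.1, ← h3.2, h4.1, h4.2]
      simp [mix]
  rw [mem_missing] at he he'
  obtain ⟨he1, -, he2, he3⟩ := he
  have h1 := hval (e.2 :: e.1) (by simp only [List.length_cons]; omega) he'.2.2.1
  obtain ⟨q, hq, h | ⟨-, a, b, i, hi⟩⟩ := mem_nodes he1
  · omega
  · have h3 := thrifty_value hT hK (by simp [hq]) hi
    have h4 := thrifty_value hT hy (by simp [hq]) hi
    rw [value_ofVal, value_ofVal] at h4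
    cases hc : e.2
    · rw [hc] at h1
      rw [← h1, ← h3.1, h4.1]
    · rw [hc] at h1
      rw [← h1, ← h3.2, h4.2]

end

end Pool.Agent.V7H70.TE
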